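import Pool.Agent.Q95.CQ.Core

/-!
# Inverse q-factorials and the basis
-/

set_option autoImplicit false

open Finset

namespace Pool.Agent.Q95.DQ

open Pool.Agent.Q95.CQ

variable {F : Type*} [Field F]

/-- `1/(q)_n`, zero for negative `n` -/
noncomputable def rf (q : F) (n : ℤ) : F := if 0 ≤ n then 1 / qp q n.toNat else 0

theorem rf_neg (q : F) {n : ℤ} (h : n < 0) : rf q n = 0 := by
  unfold rf; rw [if_neg (by omega)]

theorem rf_nat (q : F) (n : ℕ) : rf q (n : ℤ) = 1 / qp q n := by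
  unfold rf; rw [if_pos (by omega), Int.toNat_natCast]

theorem rf_sub (q : F) {n k : ℕ} (h : k ≤ n) : rf q ((n : ℤ) - k) = 1 / qp q (n - k) := by
  rw [← Nat.cast_sub h, rf_nat]

theorem rf_step {q : F} (h : Gen q) (n : ℤ) : rf q (n - 1) = (1 - q ^ n) * rf q n := by
  rcases lt_trichotomy n 0 with hn | hn | hn
  · rw [rf_neg q (by omega), rf_neg q hn, mul_zero]
  · subst hn
    rw [rf_neg q (by norm_num), zpow_zero, sub_self, zero_mul]
  · obtain ⟨k, rfl⟩ : ∃ k : ℕ, n = ((k + 1 : ℕ) : ℤ) := ⟨(n - 1).toNat, by omega⟩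
    rw [show (((k + 1 : ℕ) : ℤ) - 1) = (k : ℤ) by push_cast; ring, rf_nat, rf_nat, zpow_natCast,
      qp_succ]
    have h1 := h.qp_ne k
    have h2 := h.sub_ne (Nat.succ_pos k)
    rw [Nat.succ_eq_add_one] at h2
    field_simp

/-- the step for a difference of naturals -/
theorem rf_step' {q : F} (h : Gen q) (a b : ℕ) :
    rf q ((a : ℤ) - ((b : ℤ) + 1)) = (1 - q ^ a / q ^ b) * rf q ((a : ℤ) - b) := by
  have h1 := rf_step h ((a : ℤ) - b)
  rw [show (a : ℤ) - b - 1 = (a : ℤ) - ((b : ℤ) + 1) by ring] at h1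
  rw [h1, zpow_sub₀ h.ne, zpow_natCast, zpow_natCast]

/-- `∏_{i<j} (X_m - X_i)` with `X_m = q^{-m} + q^{m+1}` -/
noncomputable def Y (q : F) (j m : ℕ) : F := (q ^ (j * m))⁻¹ * (qp q (m + j) * rf q ((m : ℤ) - j))

/-- `X_m` -/
noncomputable def XX (q : F) (m : ℕ) : F := (q ^ m)⁻¹ + q ^ (m + 1)

theorem Y_zero {q : F} (h : Gen q) (m : ℕ) : Y q 0 m = 1 := by
  unfold Y
  have h1 := h.qp_ne m
  have h2 := rf_nat q m
  rw [Nat.cast_zero, sub_zero, h2, zero_mul, pow_zero, inv_one, one_mul, add_zero]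
  field_simp

theorem Y_of_lt (q : F) {j m : ℕ} (hj : m < j) : Y q j m = 0 := by
  unfold Y
  rw [rf_neg q (by omega), mul_zero, mul_zero]

theorem Y_succ {q : F} (h : Gen q) (j m : ℕ) :
    Y q (j + 1) m = (XX q m - XX q j) * Y q j m := by
  unfold Y XX
  have h1 : q ^ m ≠ 0 := pow_ne_zero _ h.ne
  have h2 : q ^ j ≠ 0 := pow_ne_zero _ h.ne
  have h3 : q ^ (j * m) ≠ 0 := pow_ne_zero _ h.ne
  rw [show m + (j + 1) = m + j + 1 by ring, qp_succ, Nat.cast_succ, rf_step' h,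
    show (j + 1) * m = j * m + m by ring, pow_add q (j * m) m,
    show m + j + 1 = m + (j + 1) by ring, pow_add q m (j + 1), pow_succ q j, pow_succ q m]
  field_simp
  ring

theorem Y_mulX {q : F} (h : Gen q) (j m : ℕ) :
    XX q m * Y q j m = XX q j * Y q j m + Y q (j + 1) m := by
  rw [Y_succ h]; ring

/-- the basis `a_j(k)` -/
noncomputable def al (q : F) (j k : ℕ) : F := Y q j k / (qp q j * qp q j)

theorem G_rf {q : F} (_ : Gen q) (N k : ℕ) :
    G q N k = qp q N / qp q k * rf q ((N : ℤ) - k) := by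
  by_cases h : k ≤ N
  · rw [G_of_le q h, rf_sub q h, div_mul_div_comm, mul_one]
  · rw [G_of_lt q (by omega), rf_neg q (by omega), mul_zero]

theorem al_eq {q : F} (h : Gen q) (j k : ℕ) :
    al q j k = (q ^ (j * k))⁻¹ * (G q (k + j) j * G q k j) := by
  unfold al Y
  rw [G_rf h k j, G_of_le q (show j ≤ k + j by omega), Nat.add_sub_cancel]
  have h1 := h.qp_ne k
  have h2 := h.qp_ne j
  have h3 : q ^ (j * k) ≠ 0 := pow_ne_zero _ h.ne
  field_simp

/-- coefficients of the product -/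
noncomputable def kap (q : F) (i j l : ℕ) : F :=
  q ^ (((l : ℤ) - (i + j)) * l) * (qp q (i + j) * qp q i * qp q j) *
    (rf q (((i + j : ℕ) : ℤ) - l) * rf q ((l : ℤ) - i) * rf q ((l : ℤ) - j) * rf q (l : ℤ))

theorem kap_big (q : F) {i j l : ℕ} (h : i + j < l) : kap q i j l = 0 := by
  unfold kap
  rw [rf_neg q (show ((i + j : ℕ) : ℤ) - l < 0 by push_cast; omega)]
  ring

theorem kap_zero_left {q : F} (h : Gen q) (j l : ℕ) :
    kap q 0 j l = if l = j then 1 else 0 := by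
  split_ifs with hl
  · subst hl
    unfold kap
    have h1 := h.qp_ne l
    have h2 := rf_nat q l
    have h3 : rf q 0 = 1 := by
      have := rf_nat q 0
      rw [Nat.cast_zero, qp_zero, div_one] at this
      exact this
    simp only [zero_add, Nat.cast_zero, sub_zero, sub_self, h2, h3, zero_mul, zpow_zero, one_mul,
      qp_zero, mul_one]
    field_simp
  · by_cases h1 : j < l
    · exact kap_big q (by omega)
    · unfold kap
      rw [rf_neg q (show (l : ℤ) - j < 0 by omega)]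
      ring

theorem kap_succ_zero {q : F} (h : Gen q) (i j : ℕ) :
    kap q (i + 1) j 0 = 0 := by
  unfold kap
  rw [rf_neg q (show ((0 : ℕ) : ℤ) - ((i + 1 : ℕ) : ℤ) < 0 by push_cast; omega)]
  ring

theorem kap_succ {q : F} (h : Gen q) (i j l : ℕ) :
    kap q (i + 1) j (l + 1) = kap q i j l + (XX q (l + 1) - XX q i) * kap q i j (l + 1) := by
  have hT1 : rf q (((i + j : ℕ) : ℤ) - ((l + 1 : ℕ) : ℤ)) =
      (1 - q ^ (i + j) / q ^ l) * rf q (((i + j : ℕ) : ℤ) - l) := by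
    rw [Nat.cast_succ l, rf_step' h]
  have hT2 : rf q (((l + 1 : ℕ) : ℤ) - ((i + 1 : ℕ) : ℤ)) =
      (1 - q ^ (l + 1) / q ^ i) * rf q (((l + 1 : ℕ) : ℤ) - i) := by
    rw [Nat.cast_succ i, rf_step' h]
  have hT3 : rf q ((l : ℤ) - j) =
      (1 - q ^ (l + 1) / q ^ j) * rf q (((l + 1 : ℕ) : ℤ) - j) := by
    rw [← rf_step' h]; congr 1; push_cast; ring
  have hT3' : rf q ((l : ℤ) - i) =
      (1 - q ^ (l + 1) / q ^ i) * rf q (((l + 1 : ℕ) : ℤ) - i) := by
    rw [← rf_step' h]; congr 1; push_cast; ring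
  have hT4 : rf q (l : ℤ) = (1 - q ^ (l + 1)) * rf q ((l + 1 : ℕ) : ℤ) := by
    rw [rf_nat, rf_nat, qp_succ]
    have h1 := h.qp_ne l
    have h2 := h.sub_ne (Nat.succ_pos l)
    rw [Nat.succ_eq_add_one] at h2
    field_simp
  have hT5 : rf q (((i + 1 + j : ℕ) : ℤ) - ((l + 1 : ℕ) : ℤ)) = rf q (((i + j : ℕ) : ℤ) - l) := by
    congr 1; push_cast; ring
  unfold kap XX
  rw [hT5, hT1, hT2, hT3, hT3', hT4]
  generalize rf q (((i + j : ℕ) : ℤ) - l) = r1
  generalize rf q (((l + 1 : ℕ) : ℤ) - i) = r2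
  generalize rf q (((l + 1 : ℕ) : ℤ) - j) = r3
  generalize rf q ((l + 1 : ℕ) : ℤ) = r4
  have e1 : q ^ ((((l + 1 : ℕ) : ℤ) - (((i + 1 : ℕ) : ℤ) + j)) * ((l + 1 : ℕ) : ℤ)) =
      q ^ ((((l + 1 : ℕ) : ℤ) - ((i : ℤ) + j)) * ((l + 1 : ℕ) : ℤ)) * (q ^ (l + 1))⁻¹ := by
    rw [← zpow_natCast q (l + 1), ← zpow_neg, ← zpow_add₀ h.ne]
    congr 1; push_cast; ring
  have e2 : q ^ (((l : ℤ) - ((i : ℤ) + j)) * (l : ℤ)) =
      q ^ ((((l + 1 : ℕ) : ℤ) - ((i : ℤ) + j)) * ((l + 1 : ℕ) : ℤ)) *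
        (q ^ (i + j) / (q ^ (l + 1) * q ^ l)) := by
    rw [← zpow_natCast q (l + 1), ← zpow_natCast q l, ← zpow_natCast q (i + j),
      ← zpow_add₀ h.ne, ← zpow_sub₀ h.ne, ← zpow_add₀ h.ne]
    congr 1; push_cast; ring
  rw [e1, e2]
  generalize q ^ ((((l + 1 : ℕ) : ℤ) - ((i : ℤ) + j)) * ((l + 1 : ℕ) : ℤ)) = Z
  rw [show i + 1 + j = i + j + 1 by ring, qp_succ, qp_succ]
  have n1 : q ^ i ≠ 0 := pow_ne_zero _ h.ne
  have n2 : q ^ j ≠ 0 := pow_ne_zero _ h.ne
  have n3 : q ^ l ≠ 0 := pow_ne_zero _ h.ne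
  have n4 := h.ne
  generalize qp q (i + j) = s1
  generalize qp q i = s2
  generalize qp q j = s3
  simp only [pow_succ, pow_add]
  generalize q ^ i = I at *
  generalize q ^ j = J at *
  generalize q ^ l = L at *
  field_simp
  ring

/-- the product formula in the basis `Y` -/
theorem Y_mul {q : F} (h : Gen q) (j k : ℕ) : ∀ i : ℕ,
    Y q i k * Y q j k = ∑ l ∈ range (i + j + 1), kap q i j l * Y q l k := by
  intro i
  induction i with
  | zero =>
    rw [Y_zero h, one_mul, zero_add, sum_range_succ, sum_eq_zero, zero_add, kap_zero_left h,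
      if_pos rfl, one_mul]
    intro l hl
    have := mem_range.1 hl
    rw [kap_zero_left h, if_neg (by omega), zero_mul]
  | succ i ih =>
    rw [Y_succ h, mul_assoc, ih, mul_sum]
    have e1 : ∀ l ∈ range (i + j + 1), (XX q k - XX q i) * (kap q i j l * Y q l k) =
        kap q i j l * Y q (l + 1) k + (XX q l - XX q i) * kap q i j l * Y q l k := by
      intro l _
      rw [Y_succ h]; ring
    rw [sum_congr rfl e1, sum_add_distrib, show i + 1 + j + 1 = i + j + 1 + 1 by ring,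
      sum_range_succ' _ (i + j + 1), kap_succ_zero h, zero_mul, add_zero]
    have e2 : ∀ l ∈ range (i + j + 1), kap q (i + 1) j (l + 1) * Y q (l + 1) k =
        kap q i j l * Y q (l + 1) k +
          (XX q (l + 1) - XX q i) * kap q i j (l + 1) * Y q (l + 1) k := by
      intro l _
      rw [kap_succ h]; ring
    rw [sum_congr rfl e2, sum_add_distrib]
    congr 1
    have e3 := sum_range_succ' (fun l => (XX q l - XX q i) * kap q i j l * Y q l k) (i + j + 1)
    have e4 := sum_range_succ (fun l => (XX q l - XX q i) * kap q i j l * Y q l k) (i + j + 1)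
    have e5 : (XX q 0 - XX q i) * kap q i j 0 * Y q 0 k = 0 := by
      rcases i with _ | i
      · rw [sub_self]; ring
      · rw [kap_succ_zero h]; ring
    have e6 : kap q i j (i + j + 1) = 0 := kap_big q (by omega)
    rw [e5, add_zero] at e3
    rw [e6, mul_zero, zero_mul, add_zero] at e4
    rw [← e3, ← e4]

end Pool.Agent.Q95.DQ
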