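import Pool.Agent.Q95.DQ.A
import Pool.Agent.Q95.CQ.Conv

/-!
# The cone spanned by the basis, and the two summations
-/

set_option autoImplicit false

open Finset

namespace Pool.Agent.Q95.DQ

open Pool.Agent.Q95.CQ

variable {F : Type*} [Field F]

/-- combinations of the basis functions with coefficients in `R` -/
inductive InM (R : Subsemiring F) (q : F) : (ℕ → F) → Prop
  | zero : InM R q (fun _ => 0)
  | add {f g : ℕ → F} : InM R q f → InM R q g → InM R q (fun k => f k + g k)
  | term (c : F) (hc : c ∈ R) (j : ℕ) : InM R q (fun k => c * al q j k)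

theorem InM.sum {R : Subsemiring F} {q : F} {ι : Type*} (s : Finset ι) (f : ι → ℕ → F)
    (hf : ∀ i ∈ s, InM R q (f i)) : InM R q (fun k => ∑ i ∈ s, f i k) := by
  classical
  induction s using Finset.induction_on with
  | empty => simpa using InM.zero
  | insert i s hi ih =>
    simp only [sum_insert hi]
    exact InM.add (hf i (mem_insert_self _ _)) (ih fun j hj => hf j (mem_insert_of_mem hj))

theorem zpow_mem' {q : F} (R : Subsemiring F) (hq : q ∈ R) (hq' : q⁻¹ ∈ R) (n : ℤ) :
    q ^ n ∈ R := by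
  rcases n with n | n
  · rw [Int.ofNat_eq_natCast, zpow_natCast]
    exact R.pow_mem hq _
  · rw [zpow_negSucc, ← inv_pow]
    exact R.pow_mem hq' _

theorem al_mul {q : F} (h : Gen q) (i j k : ℕ) :
    al q i k * al q j k = ∑ l ∈ range (i + j + 1),
      q ^ (((l : ℤ) - (i + j)) * l) * (G q (i + j) l * G q l i * G q l j) * al q l k := by
  have e0 : al q i k * al q j k = (Y q i k * Y q j k) * (qp q i * qp q i * (qp q j * qp q j))⁻¹ := by
    unfold al
    rw [div_mul_div_comm, div_eq_mul_inv]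
  rw [e0, Y_mul h, sum_mul]
  refine sum_congr rfl fun l _ => ?_
  unfold kap al
  rw [G_rf h (i + j) l, G_rf h l i, G_rf h l j, rf_nat]
  have h1 := h.qp_ne l
  have h2 := h.qp_ne i
  have h3 := h.qp_ne j
  field_simp

theorem InM.mul {R : Subsemiring F} {q : F} (h : Gen q) (hq : q ∈ R) (hq' : q⁻¹ ∈ R)
    {f g : ℕ → F} (hf : InM R q f) (hg : InM R q g) : InM R q (fun k => f k * g k) := by
  induction hf with
  | zero => simpa using InM.zero
  | @add f1 f2 _ _ h1 h2 =>
    simp only [add_mul]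
    exact InM.add h1 h2
  | term c hc i =>
    induction hg with
    | zero => simpa using InM.zero
    | @add g1 g2 _ _ h1 h2 =>
      simp only [mul_add]
      exact InM.add h1 h2
    | term d hd j =>
      have e1 : (fun k => c * al q i k * (d * al q j k)) = fun k =>
          ∑ l ∈ range (i + j + 1), (c * d *
            (q ^ (((l : ℤ) - (i + j)) * l) * (G q (i + j) l * G q l i * G q l j))) * al q l k := by
        funext k
        rw [show c * al q i k * (d * al q j k) = c * d * (al q i k * al q j k) by ring,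
          al_mul h, mul_sum]
        exact sum_congr rfl fun l _ => by ring
      rw [e1]
      refine InM.sum _ _ fun l _ => InM.term _ ?_ l
      exact R.mul_mem (R.mul_mem hc hd) (R.mul_mem (zpow_mem' R hq hq' _)
        (R.mul_mem (R.mul_mem (h.G_mem R hq _ _) (h.G_mem R hq _ _)) (h.G_mem R hq _ _)))

theorem InM.one {R : Subsemiring F} {q : F} (h : Gen q) : InM R q (fun _ => 1) := by
  have := InM.term (R := R) (q := q) 1 R.one_mem 0
  have e : (fun k => 1 * al q 0 k) = fun _ => (1 : F) := by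
    funext k
    unfold al
    rw [Y_zero h, qp_zero]
    ring
  rwa [e] at this

theorem InM.pow {R : Subsemiring F} {q : F} (h : Gen q) (hq : q ∈ R) (hq' : q⁻¹ ∈ R)
    {f : ℕ → F} (hf : InM R q f) (r : ℕ) : InM R q (fun k => f k ^ r) := by
  induction r with
  | zero => simpa using InM.one h
  | succ r ih =>
    simp only [pow_succ]
    exact InM.mul h hq hq' ih hf

theorem sumB {q : F} (h : Gen q) (j : ℕ) : ∀ n : ℕ,
    ∑ k ∈ range n, (1 - q ^ (2 * k + 1)) * (q ^ k)⁻¹ * Y q j k =
      q ^ (j + 1) / (1 - q ^ (j + 1)) * ((q ^ ((j + 1) * n))⁻¹ * ((1 - q ^ n) *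
        (qp q (n + j) * rf q ((n : ℤ) - (j + 1))))) := by
  intro n
  induction n with
  | zero => simp
  | succ n ih =>
    rw [sum_range_succ, ih]
    unfold Y
    rw [rf_step' h, show ((n + 1 : ℕ) : ℤ) - ((j : ℤ) + 1) = (n : ℤ) - j by push_cast; ring,
      show n + 1 + j = n + j + 1 by ring, qp_succ]
    generalize rf q ((n : ℤ) - j) = r1
    generalize qp q (n + j) = s1
    have n1 : q ^ n ≠ 0 := pow_ne_zero _ h.ne
    have n2 : q ^ j ≠ 0 := pow_ne_zero _ h.ne
    have n3 : q ^ (j * n) ≠ 0 := pow_ne_zero _ h.ne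
    have n4 := h.ne
    have n5 := h.sub_ne (Nat.succ_pos j)
    rw [Nat.succ_eq_add_one] at n5
    rw [show (j + 1) * (n + 1) = j * n + j + n + 1 by ring, show (j + 1) * n = j * n + n by ring,
      show 2 * n + 1 = n + n + 1 by ring]
    simp only [pow_succ, pow_add] at *
    generalize q ^ n = N at *
    generalize q ^ j = J at *
    generalize q ^ (j * n) = JN at *
    field_simp
    ring

theorem sumC {q : F} (h : Gen q) (j : ℕ) : ∀ n : ℕ,
    ∑ k ∈ range n, (-1) ^ (n - 1 - k) * (1 - q ^ (2 * k + 1)) * q ^ (k * (k - 1) / 2) * Y q j k =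
      q ^ (n * (n - 1) / 2) * ((q ^ (j * n))⁻¹ * (qp q (n + j) * rf q ((n : ℤ) - (j + 1)))) := by
  intro n
  induction n with
  | zero =>
    rw [range_zero, sum_empty, rf_neg q (by push_cast; omega)]
    ring
  | succ n ih =>
    have e1 : ∑ k ∈ range n, (-1) ^ (n + 1 - 1 - k) * (1 - q ^ (2 * k + 1)) *
        q ^ (k * (k - 1) / 2) * Y q j k = - ∑ k ∈ range n, (-1) ^ (n - 1 - k) *
        (1 - q ^ (2 * k + 1)) * q ^ (k * (k - 1) / 2) * Y q j k := by
      rw [← sum_neg_distrib]
      refine sum_congr rfl fun k hk => ?_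
      have := mem_range.1 hk
      rw [show n + 1 - 1 - k = n - 1 - k + 1 by omega, pow_succ]
      ring
    rw [sum_range_succ, e1, ih, show n + 1 - 1 - n = 0 by omega, pow_zero, one_mul]
    unfold Y
    have e2 : (n + 1) * (n + 1 - 1) / 2 = n * (n - 1) / 2 + n := by
      rw [← Nat.choose_two_right, ← Nat.choose_two_right, Nat.choose_succ_succ' n 1,
        Nat.choose_one_right]
      ring
    rw [e2, rf_step' h, show ((n + 1 : ℕ) : ℤ) - ((j : ℤ) + 1) = (n : ℤ) - j by push_cast; ring,
      show n + 1 + j = n + j + 1 by ring, qp_succ]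
    generalize rf q ((n : ℤ) - j) = r1
    generalize qp q (n + j) = s1
    have n1 : q ^ n ≠ 0 := pow_ne_zero _ h.ne
    have n2 : q ^ j ≠ 0 := pow_ne_zero _ h.ne
    have n3 : q ^ (j * n) ≠ 0 := pow_ne_zero _ h.ne
    have n4 := h.ne
    rw [show j * (n + 1) = j * n + j by ring, show 2 * n + 1 = n + n + 1 by ring]
    simp only [pow_succ, pow_add] at *
    generalize q ^ (n * (n - 1) / 2) = Z at *
    generalize q ^ n = N at *
    generalize q ^ j = J at *
    generalize q ^ (j * n) = JN at *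
    field_simp
    ring

theorem inM_B {R : Subsemiring F} {q : F} (h : Gen q) (hq : q ∈ R) (hq' : q⁻¹ ∈ R)
    {f : ℕ → F} (hf : InM R q f) (n : ℕ) (hn : 0 < n) :
    1 / (1 - q ^ n) * ∑ k ∈ range n, (1 - q ^ (2 * k + 1)) * (q ^ k)⁻¹ * f k ∈ R := by
  induction hf with
  | zero => simp
  | @add f g _ _ h1 h2 =>
    simp only [mul_add, sum_add_distrib]
    exact R.add_mem h1 h2
  | term c hc j =>
    have e1 : 1 / (1 - q ^ n) * ∑ k ∈ range n, (1 - q ^ (2 * k + 1)) * (q ^ k)⁻¹ *
        (c * al q j k) = c * (q ^ (j + 1) * (q⁻¹ ^ ((j + 1) * n) *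
          (G q n (j + 1) * G q (n + j) j))) := by
      have e2 : ∑ k ∈ range n, (1 - q ^ (2 * k + 1)) * (q ^ k)⁻¹ * (c * al q j k) =
          c / (qp q j * qp q j) * ∑ k ∈ range n, (1 - q ^ (2 * k + 1)) * (q ^ k)⁻¹ * Y q j k := by
        rw [mul_sum]
        refine sum_congr rfl fun k _ => ?_
        unfold al
        ring
      rw [e2, sumB h, G_rf h n (j + 1), G_of_le q (show j ≤ n + j by omega), Nat.add_sub_cancel,
        qp_succ q j, Nat.cast_succ, inv_pow]
      have n1 := h.sub_ne hn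
      have n2 := h.qp_ne j
      have n3 := h.qp_ne n
      have n4 := h.sub_ne (Nat.succ_pos j)
      rw [Nat.succ_eq_add_one] at n4
      field_simp
    rw [e1]
    exact R.mul_mem hc (R.mul_mem (R.pow_mem hq _) (R.mul_mem (R.pow_mem hq' _)
      (R.mul_mem (h.G_mem R hq _ _) (h.G_mem R hq _ _))))

theorem inM_C {R : Subsemiring F} {q : F} (h : Gen q) (hq : q ∈ R) (hq' : q⁻¹ ∈ R)
    {f : ℕ → F} (hf : InM R q f) (n : ℕ) (hn : 0 < n) :
    1 / (1 - q ^ n) * ∑ k ∈ range n, (-1) ^ (n - 1 - k) * (1 - q ^ (2 * k + 1)) *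
      q ^ (k * (k - 1) / 2) * f k ∈ R := by
  induction hf with
  | zero => simp
  | @add f g _ _ h1 h2 =>
    simp only [mul_add, sum_add_distrib]
    exact R.add_mem h1 h2
  | term c hc j =>
    have e1 : 1 / (1 - q ^ n) * ∑ k ∈ range n, (-1) ^ (n - 1 - k) * (1 - q ^ (2 * k + 1)) *
        q ^ (k * (k - 1) / 2) * (c * al q j k) = c * (q ^ (n * (n - 1) / 2) * (q⁻¹ ^ (j * n) *
          (G q (n - 1) j * G q (n + j) j))) := by
      have e2 : ∑ k ∈ range n, (-1) ^ (n - 1 - k) * (1 - q ^ (2 * k + 1)) *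
          q ^ (k * (k - 1) / 2) * (c * al q j k) =
          c / (qp q j * qp q j) * ∑ k ∈ range n, (-1) ^ (n - 1 - k) * (1 - q ^ (2 * k + 1)) *
          q ^ (k * (k - 1) / 2) * Y q j k := by
        rw [mul_sum]
        refine sum_congr rfl fun k _ => ?_
        unfold al
        ring
      obtain ⟨d, rfl⟩ : ∃ d, n = d + 1 := ⟨n - 1, by omega⟩
      rw [e2, sumC h, Nat.add_sub_cancel, G_rf h d j,
        G_of_le q (show j ≤ d + 1 + j by omega), Nat.add_sub_cancel, inv_pow, qp_succ q d,
        show ((d + 1 : ℕ) : ℤ) - ((j : ℤ) + 1) = (d : ℤ) - j by push_cast; ring]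
      have n1 := h.sub_ne hn
      have n2 := h.qp_ne j
      have n3 := h.qp_ne d
      field_simp
    rw [e1]
    exact R.mul_mem hc (R.mul_mem (R.pow_mem hq _) (R.mul_mem (R.pow_mem hq' _)
      (R.mul_mem (h.G_mem R hq _ _) (h.G_mem R hq _ _))))

end Pool.Agent.Q95.DQ
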