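import Pool.Agent.Q95.DQ.B

/-!
# The q-Delannoy numbers and the expansion of the product
-/

set_option autoImplicit false

open Finset

namespace Pool.Agent.Q95.DQ

open Pool.Agent.Q95.CQ

variable {F : Type*} [Field F]

/-- `D_q(m,n)` -/
noncomputable def dd (q : F) (m n : ℕ) : F :=
  ∑ k ∈ range (n + 1), q ^ (k.choose 2) * G q n k * G q (n + m - k) n

/-- `q^{mn} D_{1/q}(m,n)` -/
noncomputable def ee (q : F) (m n : ℕ) : F :=
  ∑ k ∈ range (n + 1), q ^ ((k + 1).choose 2) * G q n k * G q (n + m - k) n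

theorem ch2 (k : ℕ) : (k + 1).choose 2 = k.choose 2 + k := by
  rw [Nat.choose_succ_succ' k 1, Nat.choose_one_right]; ring

theorem G_succ_mul {q : F} (h : Gen q) (n k : ℕ) :
    (1 - q ^ (k + 1)) * G q n (k + 1) = (1 - q ^ n / q ^ k) * G q n k := by
  rw [G_rf h, G_rf h, Nat.cast_succ, rf_step' h, qp_succ]
  have n1 := h.sub_ne (Nat.succ_pos k)
  rw [Nat.succ_eq_add_one] at n1
  have n2 := h.qp_ne k
  field_simp

theorem R1 {q : F} (h : Gen q) (m n : ℕ) :
    ee q (m + 1) n + ee q m n = dd q (m + 1) n + q ^ n * dd q m n := by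
  have e1 : ee q (m + 1) n - dd q (m + 1) n = ∑ k ∈ range (n + 1),
      (q ^ ((k + 1).choose 2) - q ^ (k.choose 2)) * G q n k * G q (n + (m + 1) - k) n := by
    unfold ee dd
    rw [← sum_sub_distrib]
    exact sum_congr rfl fun k _ => by ring
  have e2 : q ^ n * dd q m n - ee q m n = ∑ k ∈ range (n + 1),
      (q ^ n * q ^ (k.choose 2) - q ^ ((k + 1).choose 2)) * G q n k * G q (n + m - k) n := by
    unfold ee dd
    rw [mul_sum, ← sum_sub_distrib]
    exact sum_congr rfl fun k _ => by ring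
  have e3 : ee q (m + 1) n - dd q (m + 1) n = q ^ n * dd q m n - ee q m n := by
    rw [e1, e2, sum_range_succ' _ n]
    have hz : (q ^ ((0 + 1).choose 2) - q ^ (Nat.choose 0 2)) * G q n 0 *
        G q (n + (m + 1) - 0) n = 0 := by simp
    have hz2 : (q ^ n * q ^ (n.choose 2) - q ^ ((n + 1).choose 2)) * G q n n *
        G q (n + m - n) n = 0 := by
      rw [ch2, pow_add]; ring
    rw [hz, add_zero, sum_range_succ _ n, hz2, add_zero]
    refine sum_congr rfl fun k _ => ?_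
    rw [show n + (m + 1) - (k + 1) = n + m - k by omega]
    congr 1
    have h1 := G_succ_mul h n k
    have n1 : q ^ k ≠ 0 := pow_ne_zero _ h.ne
    rw [ch2 (k + 1), ch2 k]
    have h2 : (q ^ (k.choose 2 + k + (k + 1)) - q ^ (k.choose 2 + k)) * G q n (k + 1) =
        - (q ^ (k.choose 2 + k) * ((1 - q ^ (k + 1)) * G q n (k + 1))) := by
      rw [pow_add q (k.choose 2 + k)]; ring
    rw [h2, h1, pow_add]
    field_simp
    ring
  linear_combination e3

theorem R2 {q : F} (h : Gen q) (m n : ℕ) :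
    ee q (m + 1) n - ee q m n = q ^ (m + 1) * (dd q (m + 1) n - q ^ n * dd q m n) := by
  unfold ee dd
  rw [mul_sum _ _ (q ^ n), ← sum_sub_distrib, ← sum_sub_distrib, mul_sum]
  refine sum_congr rfl fun k hk => ?_
  have hk' := mem_range.1 hk
  rw [ch2, pow_add]
  by_cases hkm : k ≤ m + 1
  · obtain ⟨d, hd⟩ : ∃ d, m + 1 = k + d := ⟨m + 1 - k, by omega⟩
    have key : (1 - q ^ d) * G q (n + d) n = (1 - q ^ (n + d)) * G q (n + m - k) n := by
      rcases d with _ | d
      · rw [pow_zero, sub_self, zero_mul, add_zero]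
        rcases n with _ | n
        · simp
        · rw [G_of_lt q (show n + 1 + m - k < n + 1 by omega), mul_zero]
      · rw [show n + m - k = n + d by omega, G_add, G_add, ← add_assoc, qp_succ, qp_succ]
        have n1 := h.sub_ne (Nat.succ_pos d)
        rw [Nat.succ_eq_add_one] at n1
        have n2 := h.qp_ne n
        have n3 := h.qp_ne d
        field_simp
    rw [show n + (m + 1) - k = n + d by omega, hd, pow_add q k d]
    rw [pow_add q n d] at key
    linear_combination (q ^ k.choose 2 * q ^ k * G q n k) * key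
  · rw [G_of_lt q (show n + (m + 1) - k < n by omega), G_of_lt q (show n + m - k < n by omega)]
    ring

theorem S1 {q : F} (h : Gen q) (m n : ℕ) :
    (1 - q ^ (m + 1)) * dd q (m + 1) n = 2 * ee q m n - q ^ n * (1 + q ^ (m + 1)) * dd q m n := by
  linear_combination -(R1 h m n) + R2 h m n

theorem S2 {q : F} (h : Gen q) (m n : ℕ) :
    (1 - q ^ (m + 1)) * ee q (m + 1) n =
      (1 + q ^ (m + 1)) * ee q m n - 2 * q ^ n * q ^ (m + 1) * dd q m n := by
  linear_combination -(q ^ (m + 1)) * (R1 h m n) + R2 h m n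

theorem dd_zero {q : F} (h : Gen q) (n : ℕ) : dd q 0 n = 1 := by
  unfold dd
  rw [sum_range_succ', sum_eq_zero]
  · simp [h.G_zero, h.G_self]
  · intro k hk
    have := mem_range.1 hk
    rw [G_of_lt q (show n + 0 - (k + 1) < n by omega), mul_zero]

theorem ee_zero {q : F} (h : Gen q) (n : ℕ) : ee q 0 n = 1 := by
  unfold ee
  rw [sum_range_succ', sum_eq_zero]
  · simp [h.G_zero, h.G_self]
  · intro k hk
    have := mem_range.1 hk
    rw [G_of_lt q (show n + 0 - (k + 1) < n by omega), mul_zero]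

/-- the product `D_q(m,n) D_{1/q}(m,n)` -/
noncomputable def Uf (q : F) (n m : ℕ) : F := dd q m n * ee q m n / (q ^ n) ^ m

/-- auxiliary -/
noncomputable def Wf (q : F) (n m : ℕ) : F := (ee q m n ^ 2 + q ^ m * dd q m n ^ 2) / (q ^ n) ^ m

/-- auxiliary -/
noncomputable def Vf (q : F) (n m : ℕ) : F :=
  (ee q m n ^ 2 + q ^ (m + 1) * (q ^ n) ^ 2 * dd q m n ^ 2) / (q ^ n) ^ (m + 1)

/-- `(1-q^m)^2` -/
def aa (q : F) (m : ℕ) : F := (1 - q ^ m) ^ 2
/-- `1+6q^m+q^{2m}` -/
def ss (q : F) (m : ℕ) : F := 1 + 6 * q ^ m + (q ^ m) ^ 2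
/-- `1+q^m` -/
def tt (q : F) (m : ℕ) : F := 1 + q ^ m

theorem F1 {q : F} (h : Gen q) (n m : ℕ) :
    aa q (m + 1) * Uf q n (m + 1) = 2 * tt q (m + 1) * Vf q n m - ss q (m + 1) * Uf q n m := by
  have h1 := S1 h m n
  have h2 := S2 h m n
  unfold aa ss tt Uf Vf
  have n1 : q ^ n ≠ 0 := pow_ne_zero _ h.ne
  have e1 : (1 - q ^ (m + 1)) ^ 2 * (dd q (m + 1) n * ee q (m + 1) n / (q ^ n) ^ (m + 1)) =
      ((1 - q ^ (m + 1)) * dd q (m + 1) n) * ((1 - q ^ (m + 1)) * ee q (m + 1) n) /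
        (q ^ n) ^ (m + 1) := by ring
  rw [e1, h1, h2, pow_succ (q ^ n) m]
  generalize q ^ (m + 1) = Q
  generalize q ^ n = N at *
  field_simp
  ring

theorem F2 {q : F} (h : Gen q) (n m : ℕ) :
    2 * tt q (m + 1) * Wf q n (m + 1) = ss q (m + 1) * Uf q n (m + 1) + aa q (m + 1) * Uf q n m := by
  have h1 := S1 h m n
  have h2 := S2 h m n
  unfold aa ss tt Uf Wf
  have n1 : q ^ n ≠ 0 := pow_ne_zero _ h.ne
  have n2 := h.sub_ne (Nat.succ_pos m)
  rw [Nat.succ_eq_add_one] at n2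
  have e1 : dd q (m + 1) n = (2 * ee q m n - q ^ n * (1 + q ^ (m + 1)) * dd q m n) /
      (1 - q ^ (m + 1)) := by
    rw [eq_div_iff n2]; linear_combination h1
  have e2 : ee q (m + 1) n = ((1 + q ^ (m + 1)) * ee q m n - 2 * q ^ n * q ^ (m + 1) * dd q m n) /
      (1 - q ^ (m + 1)) := by
    rw [eq_div_iff n2]; linear_combination h2
  rw [e1, e2, pow_succ (q ^ n) m]
  generalize q ^ (m + 1) = Q at *
  generalize q ^ n = N at *
  field_simp
  ring

theorem F3 {q : F} (h : Gen q) (n m : ℕ) :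
    2 * Vf q n (m + 1) = tt q (m + 1) * XX q n * (Uf q n (m + 1) + Uf q n m) -
      2 * q * Wf q n m := by
  have h1 := S1 h m n
  have h2 := S2 h m n
  unfold tt Uf Wf Vf XX
  have n0 := h.ne
  have n1 : q ^ n ≠ 0 := pow_ne_zero _ h.ne
  have n2 := h.sub_ne (Nat.succ_pos m)
  rw [Nat.succ_eq_add_one] at n2
  have e1 : dd q (m + 1) n = (2 * ee q m n - q ^ n * (1 + q ^ (m + 1)) * dd q m n) /
      (1 - q ^ (m + 1)) := by
    rw [eq_div_iff n2]; linear_combination h1
  have e2 : ee q (m + 1) n = ((1 + q ^ (m + 1)) * ee q m n - 2 * q ^ n * q ^ (m + 1) * dd q m n) /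
      (1 - q ^ (m + 1)) := by
    rw [eq_div_iff n2]; linear_combination h2
  rw [e1, e2, pow_succ (q ^ n) (m + 1), pow_succ (q ^ n) m, pow_succ q n, pow_succ q (m + 1)]
  have e3 : q ^ m = q ^ (m + 1) / q := by rw [pow_succ]; field_simp
  rw [e3]
  generalize q ^ (m + 1) = Q at *
  generalize q ^ n = N at *
  field_simp
  ring

theorem W0 {q : F} (h : Gen q) (n : ℕ) : 2 * tt q 0 * Wf q n 0 = ss q 0 * Uf q n 0 := by
  unfold tt ss Wf Uf
  rw [dd_zero h, ee_zero h]
  simp
  norm_num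

theorem U0 {q : F} (h : Gen q) (n : ℕ) : Uf q n 0 = 1 := by
  unfold Uf
  rw [dd_zero h, ee_zero h]
  simp

theorem V0 {q : F} (h : Gen q) (n : ℕ) : Vf q n 0 = XX q n := by
  unfold Vf XX
  rw [dd_zero h, ee_zero h]
  have n1 : q ^ n ≠ 0 := pow_ne_zero _ h.ne
  rw [pow_succ q n]
  simp only [zero_add, pow_one, one_pow, mul_one]
  field_simp

theorem aa_zero (q : F) : aa q 0 = 0 := by unfold aa; simp

/-- the four term recurrence -/
theorem REC {q : F} (h : Gen q) (n m : ℕ) :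
    tt q m * (aa q (m + 2) * Uf q n (m + 2) + ss q (m + 2) * Uf q n (m + 1)) +
      q * tt q (m + 2) * (ss q m * Uf q n m + aa q m * Uf q n (m - 1)) =
    tt q m * tt q (m + 1) * tt q (m + 2) * XX q n * (Uf q n (m + 1) + Uf q n m) := by
  have f1 := F1 h n (m + 1)
  have f3 := F3 h n m
  have fW : 2 * tt q m * Wf q n m = ss q m * Uf q n m + aa q m * Uf q n (m - 1) := by
    rcases m with _ | m
    · rw [W0 h, aa_zero]; ring
    · exact F2 h n m
  rw [show m + 1 + 1 = m + 2 by ring] at f1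
  rw [← fW]
  linear_combination tt q m * f1 + tt q m * tt q (m + 2) * f3

end Pool.Agent.Q95.DQ
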