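import Pool.Agent.Q95.DQ.C

/-!
# The expansion of the product in the basis
-/

set_option autoImplicit false

open Finset

namespace Pool.Agent.Q95.DQ

open Pool.Agent.Q95.CQ

variable {F : Type*} [Field F]

/-- `(-1;q)_j (-q;q)_j` -/
def tw (q : F) (j : ℕ) : F := ∏ i ∈ range j, ((1 + q ^ i) * (1 + q ^ (i + 1)))

theorem tw_succ (q : F) (j : ℕ) : tw q (j + 1) = tw q j * ((1 + q ^ j) * (1 + q ^ (j + 1))) := by
  unfold tw; rw [prod_range_succ]

/-- the weights -/
noncomputable def ww (q : F) (j : ℕ) : F :=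
  tw q j * q ^ (j * j) / (qp q (2 * j) * (qp q j * qp q j))

theorem ww_zero (q : F) : ww q 0 = 1 := by
  unfold ww tw; simp [qp_zero]

theorem ww_succ {q : F} (h : Gen q) (j : ℕ) :
    ww q (j + 1) = ww q j * ((1 + q ^ j) * (1 + q ^ (j + 1)) * q ^ (2 * j + 1) /
      ((1 - q ^ (2 * j + 1)) * (1 - q ^ (2 * j + 2)) * (1 - q ^ (j + 1)) ^ 2)) := by
  unfold ww
  rw [tw_succ, show 2 * (j + 1) = 2 * j + 1 + 1 by ring, qp_succ, qp_succ, qp_succ,
    show 2 * j + 1 + 1 = 2 * j + 2 by ring,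
    show (j + 1) * (j + 1) = j * j + (2 * j + 1) by ring, pow_add q (j * j)]
  have n1 := h.sub_ne (show 0 < 2 * j + 1 by omega)
  have n2 := h.sub_ne (show 0 < 2 * j + 2 by omega)
  have n3 := h.sub_ne (show 0 < j + 1 by omega)
  have n4 := h.qp_ne (2 * j)
  have n5 := h.qp_ne j
  field_simp

theorem T0 {q : F} (m : ℕ) :
    tt q m * (aa q (m + 2) * 1 + ss q (m + 2) * 1) +
      q * tt q (m + 2) * (ss q m * 1 + aa q m * 1) =
    tt q m * tt q (m + 1) * tt q (m + 2) * (XX q 0 * (1 + 1)) := by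
  unfold tt aa ss XX
  simp only [pow_add, pow_zero, inv_one]
  ring

theorem T1 {q : F} (h : Gen q) (i m : ℕ) :
    tt q m * (aa q (m + 2) * (ww q (i + 1) * Y q (i + 1) (m + 2)) +
        ss q (m + 2) * (ww q (i + 1) * Y q (i + 1) (m + 1))) +
      q * tt q (m + 2) * (ss q m * (ww q (i + 1) * Y q (i + 1) m) +
        aa q m * (ww q (i + 1) * Y q (i + 1) (m - 1))) =
    tt q m * tt q (m + 1) * tt q (m + 2) *
      (XX q (i + 1) * (ww q (i + 1) * Y q (i + 1) (m + 1) + ww q (i + 1) * Y q (i + 1) m) +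
        (ww q i * Y q i (m + 1) + ww q i * Y q i m)) := by
  have n0 := h.ne
  have n1 : q ^ i ≠ 0 := pow_ne_zero _ h.ne
  have n2 : q ^ m ≠ 0 := pow_ne_zero _ h.ne
  have n3 : q ^ ((i + 1) * m) ≠ 0 := pow_ne_zero _ h.ne
  set r := rf q (((m + 1 : ℕ) : ℤ) - i) with hr
  set s := qp q (m + i) with hs
  set Z := (q ^ ((i + 1) * m))⁻¹ with hZ
  have r1 : rf q ((m : ℤ) - i) = (1 - q ^ m * q / q ^ i) * r := by
    rw [hr, ← pow_succ, ← rf_step' h]; congr 1; push_cast; ring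
  have y2 : Y q (i + 1) (m + 2) = Z * (q ^ i * q)⁻¹ ^ 2 * (s * (1 - q ^ m * q ^ i * q) *
      (1 - q ^ m * q ^ i * q ^ 2) * (1 - q ^ m * q ^ i * q ^ 3) * r) := by
    unfold Y
    rw [show m + 2 + (i + 1) = m + i + 1 + 1 + 1 by ring, qp_succ, qp_succ, qp_succ, hr,
      show ((m + 2 : ℕ) : ℤ) - ((i + 1 : ℕ) : ℤ) = ((m + 1 : ℕ) : ℤ) - i by push_cast; ring,
      show (i + 1) * (m + 2) = (i + 1) * m + i + i + 2 by ring, hZ, hs]
    simp only [pow_add]
    field_simp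
  have y1 : Y q (i + 1) (m + 1) = Z * (q ^ i * q)⁻¹ * (s * (1 - q ^ m * q ^ i * q) *
      (1 - q ^ m * q ^ i * q ^ 2) * ((1 - q ^ m * q / q ^ i) * r)) := by
    unfold Y
    rw [show m + 1 + (i + 1) = m + i + 1 + 1 by ring, qp_succ, qp_succ, ← r1,
      show ((m + 1 : ℕ) : ℤ) - ((i + 1 : ℕ) : ℤ) = (m : ℤ) - i by push_cast; ring,
      show (i + 1) * (m + 1) = (i + 1) * m + i + 1 by ring, hZ, hs]
    simp only [pow_add]
    field_simp
  have y0 : Y q (i + 1) m = Z * (s * (1 - q ^ m * q ^ i * q) *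
      ((1 - q ^ m / q ^ i) * ((1 - q ^ m * q / q ^ i) * r))) := by
    unfold Y
    rw [show m + (i + 1) = m + i + 1 by ring, qp_succ, ← r1,
      show (m : ℤ) - ((i + 1 : ℕ) : ℤ) = (m : ℤ) - ((i : ℤ) + 1) by push_cast; ring,
      rf_step' h, hZ, hs]
    simp only [pow_add]
    field_simp
  have ym : aa q m * (ww q (i + 1) * Y q (i + 1) (m - 1)) = aa q m * (ww q (i + 1) *
      (Z * (q ^ i * q) * (s * ((1 - q ^ m / q / q ^ i) * ((1 - q ^ m / q ^ i) *
        ((1 - q ^ m * q / q ^ i) * r)))))) := by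
    rcases m with _ | m
    · rw [aa_zero]; ring
    · congr 2
      rw [← r1, show ((m + 1 : ℕ) : ℤ) - (i : ℤ) = (m : ℤ) - i + 1 by push_cast; ring]
      unfold Y
      rw [Nat.add_sub_cancel, show m + (i + 1) = m + 1 + i by ring,
        show (m : ℤ) - ((i + 1 : ℕ) : ℤ) = (m : ℤ) - ((i : ℤ) + 1) by push_cast; ring,
        rf_step' h]
      have e1 : rf q ((m : ℤ) - i) = (1 - q ^ (m + 1) / q ^ i) * rf q ((m : ℤ) - i + 1) := by
        have := rf_step' h (m + 1) i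
        rw [show ((m + 1 : ℕ) : ℤ) - ((i : ℤ) + 1) = (m : ℤ) - i by push_cast; ring,
          show ((m + 1 : ℕ) : ℤ) - (i : ℤ) = (m : ℤ) - i + 1 by push_cast; ring] at this
        exact this
      rw [e1, hZ, hs, show (i + 1) * (m + 1) = (i + 1) * m + i + 1 by ring]
      have n3' : q ^ ((i + 1) * m) ≠ 0 := pow_ne_zero _ h.ne
      simp only [pow_add, pow_one]
      field_simp
  have z1 : Y q i (m + 1) = Z * (q ^ m / q ^ i) * (s * (1 - q ^ m * q ^ i * q) * r) := by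
    unfold Y
    rw [show m + 1 + i = m + i + 1 by ring, qp_succ, hr, hZ, hs,
      show (i + 1) * m = i * m + m by ring, show i * (m + 1) = i * m + i by ring]
    have n3' : q ^ (i * m) ≠ 0 := pow_ne_zero _ h.ne
    simp only [pow_add, pow_one]
    field_simp
  have z0 : Y q i m = Z * q ^ m * (s * ((1 - q ^ m * q / q ^ i) * r)) := by
    unfold Y
    rw [← r1, hZ, hs, show (i + 1) * m = i * m + m by ring]
    have n3' : q ^ (i * m) ≠ 0 := pow_ne_zero _ h.ne
    simp only [pow_add]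
    field_simp
  rw [ym, y2, y1, y0, z1, z0, ww_succ h]
  have n4 := h.sub_ne (show 0 < 2 * i + 1 by omega)
  have n5 := h.sub_ne (show 0 < 2 * i + 2 by omega)
  have n6 := h.sub_ne (show 0 < i + 1 by omega)
  clear_value r s Z
  generalize ww q i = w
  unfold tt aa ss XX
  rw [show 2 * i + 1 = i + i + 1 by ring, show 2 * i + 2 = i + i + 2 by ring] at *
  simp only [pow_add, pow_one] at *
  clear ym y2 y1 y0 z1 z0 r1 hr hs hZ n3
  generalize q ^ i = I at *
  generalize q ^ m = M at *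
  have n4' : 1 - q * I ^ 2 ≠ 0 := by
    intro hh; exact n4 (by linear_combination hh)
  have n5' : 1 - q ^ 2 * I ^ 2 ≠ 0 := by
    intro hh; exact n5 (by linear_combination hh)
  have n6' : 1 - q * I ≠ 0 := by
    intro hh; exact n6 (by linear_combination hh)
  field_simp
  ring

end Pool.Agent.Q95.DQ
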