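import Pool.Agent.Q95.DQ.D

/-!
# The product formula and the three sums
-/

set_option autoImplicit false

open Finset

namespace Pool.Agent.Q95.DQ

open Pool.Agent.Q95.CQ

variable {F : Type*} [Field F]

/-- the expansion -/
noncomputable def RR (q : F) (n m : ℕ) : F :=
  ∑ j ∈ range (n + 2), ww q j * Y q j m * Y q j n

theorem RREC {q : F} (h : Gen q) (n m : ℕ) :
    tt q m * (aa q (m + 2) * RR q n (m + 2) + ss q (m + 2) * RR q n (m + 1)) +
      q * tt q (m + 2) * (ss q m * RR q n m + aa q m * RR q n (m - 1)) =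
    tt q m * tt q (m + 1) * tt q (m + 2) * XX q n * (RR q n (m + 1) + RR q n m) := by
  have hS : ∀ S : ℕ → F, ∑ j ∈ range (n + 1), S j * Y q (j + 1) n =
      ∑ j ∈ range (n + 2), S j * Y q (j + 1) n := by
    intro S
    rw [sum_range_succ _ (n + 1), Y_of_lt q (show n < n + 1 + 1 by omega), mul_zero, add_zero]
  have e1 : tt q m * (aa q (m + 2) * RR q n (m + 2) + ss q (m + 2) * RR q n (m + 1)) +
      q * tt q (m + 2) * (ss q m * RR q n m + aa q m * RR q n (m - 1)) =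
      ∑ j ∈ range (n + 2), (tt q m * (aa q (m + 2) * (ww q j * Y q j (m + 2)) +
        ss q (m + 2) * (ww q j * Y q j (m + 1))) +
      q * tt q (m + 2) * (ss q m * (ww q j * Y q j m) +
        aa q m * (ww q j * Y q j (m - 1)))) * Y q j n := by
    unfold RR
    simp only [mul_sum, ← sum_add_distrib]
    exact sum_congr rfl fun j _ => by ring
  have e2 : tt q m * tt q (m + 1) * tt q (m + 2) * XX q n * (RR q n (m + 1) + RR q n m) =
      tt q m * tt q (m + 1) * tt q (m + 2) * (∑ j ∈ range (n + 2), XX q j *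
        (ww q j * Y q j (m + 1) + ww q j * Y q j m) * Y q j n +
      ∑ j ∈ range (n + 2), (ww q j * Y q j (m + 1) + ww q j * Y q j m) * Y q (j + 1) n) := by
    unfold RR
    rw [← sum_add_distrib, ← sum_add_distrib, mul_sum, mul_sum]
    refine sum_congr rfl fun j _ => ?_
    have := Y_mulX h j n
    linear_combination (tt q m * tt q (m + 1) * tt q (m + 2) *
      (ww q j * Y q j (m + 1) + ww q j * Y q j m)) * this
  rw [e1, e2, ← hS, sum_range_succ' _ (n + 1), sum_range_succ' _ (n + 1)]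
  have e3 : ∀ j ∈ range (n + 1), (tt q m * (aa q (m + 2) * (ww q (j + 1) * Y q (j + 1) (m + 2)) +
        ss q (m + 2) * (ww q (j + 1) * Y q (j + 1) (m + 1))) +
      q * tt q (m + 2) * (ss q m * (ww q (j + 1) * Y q (j + 1) m) +
        aa q m * (ww q (j + 1) * Y q (j + 1) (m - 1)))) * Y q (j + 1) n =
      tt q m * tt q (m + 1) * tt q (m + 2) *
      (XX q (j + 1) * (ww q (j + 1) * Y q (j + 1) (m + 1) + ww q (j + 1) * Y q (j + 1) m) *
        Y q (j + 1) n + (ww q j * Y q j (m + 1) + ww q j * Y q j m) * Y q (j + 1) n) := by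
    intro j _
    rw [T1 h]; ring
  rw [sum_congr rfl e3, ← mul_sum, sum_add_distrib, Y_zero h, Y_zero h, Y_zero h, Y_zero h,
    Y_zero h, ww_zero]
  have := T0 (q := q) m
  linear_combination this

theorem RR0 {q : F} (h : Gen q) (n : ℕ) : RR q n 0 = 1 := by
  unfold RR
  rw [sum_range_succ', sum_eq_zero]
  · rw [Y_zero h, Y_zero h, ww_zero]; ring
  · intro j _
    rw [Y_of_lt q (show 0 < j + 1 by omega)]; ring

theorem RR1 {q : F} (h : Gen q) (n : ℕ) :
    aa q 1 * RR q n 1 = 2 * tt q 1 * XX q n - ss q 1 := by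
  unfold RR
  rw [sum_range_succ', sum_range_succ', sum_eq_zero]
  · have hw1 := ww_succ h 0
    rw [zero_add, ww_zero] at hw1
    rw [Y_zero h, Y_zero h, ww_zero, zero_add, zero_add, Y_succ h, Y_succ h, Y_zero h, Y_zero h,
      hw1]
    have n1 := h.sub_ne (show 0 < 1 by omega)
    have n2 := h.sub_ne (show 0 < 2 by omega)
    have n3 := h.ne
    rw [pow_one] at n1
    unfold aa tt ss XX
    simp only [zero_add, mul_zero, pow_one, pow_zero, inv_one, mul_one, one_mul]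
    generalize (q ^ n)⁻¹ + q ^ (n + 1) = X
    field_simp
    ring
  · intro j _
    rw [Y_of_lt q (show 1 < j + 1 + 1 by omega)]; ring

theorem tt_ne {q : F} (h : Gen q) (h2 : (2 : F) ≠ 0) (m : ℕ) : tt q m ≠ 0 := by
  unfold tt
  rcases m with _ | m
  · rw [pow_zero]; intro hh; exact h2 (by linear_combination hh)
  · intro hh
    apply h.sub_ne (show 0 < 2 * (m + 1) by omega)
    rw [two_mul, pow_add]
    linear_combination (1 - q ^ (m + 1)) * hh

theorem aa_ne {q : F} (h : Gen q) (m : ℕ) : aa q (m + 1) ≠ 0 :=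
  pow_ne_zero _ (h.sub_ne (Nat.succ_pos m))

/-- **The product formula.** -/
theorem U_eq {q : F} (h : Gen q) (h2 : (2 : F) ≠ 0) (n : ℕ) : ∀ m,
    (Uf q n m = RR q n m ∧ Uf q n (m + 1) = RR q n (m + 1)) ∧ Uf q n (m - 1) = RR q n (m - 1) := by
  intro m
  induction m with
  | zero =>
    have h0 : Uf q n 0 = RR q n 0 := by rw [U0 h, RR0 h]
    refine ⟨⟨h0, ?_⟩, h0⟩
    have h1 := F1 h n 0
    rw [V0 h, U0 h, mul_one, zero_add] at h1
    have h3 := RR1 h n
    have := aa_ne h 0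
    exact mul_left_cancel₀ this (by rw [zero_add, h1, h3])
  | succ m ih =>
    obtain ⟨⟨h0, h1⟩, hm⟩ := ih
    refine ⟨⟨h1, ?_⟩, by rw [Nat.add_sub_cancel]; exact h0⟩
    have r1 := REC h n m
    have r2 := RREC h n m
    rw [h1, h0, hm] at r1
    have n1 := tt_ne h h2 m
    have n2 := aa_ne h (m + 1)
    rw [show m + 1 + 1 = m + 2 by ring] at n2 ⊢
    refine mul_left_cancel₀ (mul_ne_zero n1 n2) ?_
    linear_combination r1 - r2

/-- coefficients of the expansion of `D_q(m,k) D_{1/q}(m,k)` in the basis `a_j(k)` -/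
noncomputable def cc (q : F) (m j : ℕ) : F := ww q j * Y q j m * (qp q j * qp q j)

theorem cc_of_lt (q : F) {m j : ℕ} (hj : m < j) : cc q m j = 0 := by
  unfold cc; rw [Y_of_lt q hj]; ring

theorem cc_eq {q : F} (h : Gen q) {m j : ℕ} (hj : j ≤ m) :
    cc q m j = tw q j * (q⁻¹ ^ (j * (m - j)) * G q (m + j) (2 * j)) := by
  obtain ⟨d, rfl⟩ : ∃ d, m = j + d := ⟨m - j, by omega⟩
  unfold cc ww Y
  rw [G_of_le q (show 2 * j ≤ j + d + j by omega), show j + d + j - 2 * j = d by omega,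
    rf_sub q (Nat.le_add_right j d), show j + d - j = d by omega,
    show j * (j + d) = j * j + j * d by ring, pow_add, inv_pow]
  have n1 := h.qp_ne j
  have n2 := h.qp_ne d
  have n3 := h.qp_ne (2 * j)
  have n4 : q ^ (j * j) ≠ 0 := pow_ne_zero _ h.ne
  have n5 : q ^ (j * d) ≠ 0 := pow_ne_zero _ h.ne
  field_simp

theorem tw_mem {q : F} (R : Subsemiring F) (hq : q ∈ R) (j : ℕ) : tw q j ∈ R :=
  R.prod_mem fun _ _ => R.mul_mem (R.add_mem R.one_mem (R.pow_mem hq _))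
    (R.add_mem R.one_mem (R.pow_mem hq _))

theorem cc_mem {q : F} (h : Gen q) (R : Subsemiring F) (hq : q ∈ R) (hq' : q⁻¹ ∈ R)
    (m j : ℕ) : cc q m j ∈ R := by
  by_cases hj : j ≤ m
  · rw [cc_eq h hj]
    exact R.mul_mem (tw_mem R hq j) (R.mul_mem (R.pow_mem hq' _) (h.G_mem R hq _ _))
  · rw [cc_of_lt q (by omega)]; exact R.zero_mem

theorem U_expand {q : F} (h : Gen q) (h2 : (2 : F) ≠ 0) (m n : ℕ) :
    Uf q n m = ∑ j ∈ range (m + 1), cc q m j * al q j n := by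
  rw [(U_eq h h2 n m).1.1]
  have e1 : ∀ j, cc q m j * al q j n = ww q j * Y q j m * Y q j n := by
    intro j
    unfold cc al
    have n1 := h.qp_ne j
    field_simp
  have e2 : ∑ j ∈ range (m + 1), cc q m j * al q j n =
      ∑ j ∈ range (m + 1), ww q j * Y q j m * Y q j n := sum_congr rfl fun j _ => e1 j
  rw [e2]
  unfold RR
  have e3 : ∀ N M : ℕ, N ≤ M → (∀ j, N ≤ j → ww q j * Y q j m * Y q j n = 0) →
      ∑ j ∈ range M, ww q j * Y q j m * Y q j n = ∑ j ∈ range N, ww q j * Y q j m * Y q j n := by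
    intro N M hNM hz
    rw [← sum_range_add_sum_Ico _ hNM, sum_eq_zero (s := Ico N M), add_zero]
    intro j hj
    exact hz j (mem_Ico.1 hj).1
  have e4 := e3 (n + 2) (n + 2 + (m + 1)) (by omega) (fun j hj => by
    rw [Y_of_lt q (show n < j by omega)]; ring)
  have e5 := e3 (m + 1) (n + 2 + (m + 1)) (by omega) (fun j hj => by
    rw [Y_of_lt q (show m < j by omega)]; ring)
  rw [← e4, e5]

theorem U_inM {q : F} (h : Gen q) (h2 : (2 : F) ≠ 0) (R : Subsemiring F) (hq : q ∈ R)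
    (hq' : q⁻¹ ∈ R) (m : ℕ) : InM R q (fun n => Uf q n m) := by
  have e : (fun n => Uf q n m) = fun n => ∑ j ∈ range (m + 1), cc q m j * al q j n := by
    funext n; exact U_expand h h2 m n
  rw [e]
  exact InM.sum _ _ fun j _ => InM.term _ (cc_mem h R hq hq' m j) j

theorem caseB {q : F} (h : Gen q) (h2 : (2 : F) ≠ 0) (R : Subsemiring F) (hq : q ∈ R)
    (hq' : q⁻¹ ∈ R) (m n r : ℕ) (hn : 0 < n) :
    1 / (1 - q ^ n) * ∑ k ∈ range n, (1 - q ^ (2 * k + 1)) * (q ^ k)⁻¹ * Uf q k m ^ r ∈ R :=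
  inM_B h hq hq' ((U_inM h h2 R hq hq' m).pow h hq hq' r) n hn

theorem caseC {q : F} (h : Gen q) (h2 : (2 : F) ≠ 0) (R : Subsemiring F) (hq : q ∈ R)
    (hq' : q⁻¹ ∈ R) (m n r : ℕ) (hn : 0 < n) :
    1 / (1 - q ^ n) * ∑ k ∈ range n, (-1) ^ (n - 1 - k) * (1 - q ^ (2 * k + 1)) *
      q ^ (k * (k - 1) / 2) * Uf q k m ^ r ∈ R :=
  inM_C h hq hq' ((U_inM h h2 R hq hq' m).pow h hq hq' r) n hn

/-- the coefficient in case A -/
theorem coefA {q : F} (h : Gen q) (R : Subsemiring F) (hq : q ∈ R)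
    (hq' : q⁻¹ ∈ R) (m j : ℕ) (hj : j ≤ m) (hm : 0 < m) :
    (1 - q ^ m) * (1 - q ^ (m + 1)) / ((1 - q ^ 2) * (1 - q ^ (j + 1))) * cc q m j ∈ R := by
  rw [cc_eq h hj]
  rcases j with _ | j
  · have e1 : (1 - q ^ m) * (1 - q ^ (m + 1)) / ((1 - q ^ 2) * (1 - q ^ (0 + 1))) *
        (tw q 0 * (q⁻¹ ^ (0 * (m - 0)) * G q (m + 0) (2 * 0))) = G q (m + 1) 2 := by
      obtain ⟨d, rfl⟩ : ∃ d, m = d + 1 := ⟨m - 1, by omega⟩
      rw [mul_zero, h.G_zero, G_of_le q (show 2 ≤ d + 1 + 1 by omega),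
        show d + 1 + 1 - 2 = d by omega, zero_mul, pow_zero, qp_succ, qp_succ,
        show qp q 2 = (1 - q ^ 1) * (1 - q ^ 2) by rw [qp_succ, qp_succ, qp_zero, one_mul]]
      unfold tw
      rw [range_zero, prod_empty]
      have n1 := h.sub_ne (show 0 < 1 by omega)
      have n2 := h.sub_ne (show 0 < 2 by omega)
      have n3 := h.qp_ne d
      rw [zero_add]
      field_simp
    rw [e1]
    exact h.G_mem R hq _ _
  · obtain ⟨d, rfl⟩ : ∃ d, m = j + 1 + d := ⟨m - (j + 1), by omega⟩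
    obtain ⟨t, ht, hte⟩ : ∃ t ∈ R, tw q (j + 1) = (1 + q) * t := by
      rw [show tw q (j + 1) = (∏ i ∈ range j, ((1 + q ^ (i + 1)) * (1 + q ^ (i + 1 + 1)))) *
        ((1 + q ^ 0) * (1 + q ^ (0 + 1))) by unfold tw; rw [prod_range_succ']]
      refine ⟨(∏ i ∈ range j, ((1 + q ^ (i + 1)) * (1 + q ^ (i + 1 + 1)))) * (1 + q ^ 0),
        R.mul_mem (R.prod_mem fun _ _ => R.mul_mem (R.add_mem R.one_mem (R.pow_mem hq _))
        (R.add_mem R.one_mem (R.pow_mem hq _))) (R.add_mem R.one_mem (R.pow_mem hq _)), ?_⟩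
      rw [zero_add, pow_one]; ring
    have e1 : (1 - q ^ (j + 1 + d)) * (1 - q ^ (j + 1 + d + 1)) *
        G q (j + 1 + d + (j + 1)) (2 * (j + 1)) / (1 - q ^ (j + 1 + 1)) =
        (1 - q ^ (2 * j + 3)) * (1 + q ^ (j + 2)) *
          G q (j + 1 + d + (j + 1) + 1) (2 * (j + 1) + 2) +
        q ^ d * (1 - q ^ (j + 1)) * G q (j + 1 + d + (j + 1)) (2 * (j + 1)) := by
      rw [G_rf h (j + 1 + d + (j + 1) + 1) (2 * (j + 1) + 2),
        G_of_le q (show 2 * (j + 1) ≤ j + 1 + d + (j + 1) by omega),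
        show j + 1 + d + (j + 1) - 2 * (j + 1) = d by omega,
        show ((j + 1 + d + (j + 1) + 1 : ℕ) : ℤ) - ((2 * (j + 1) + 2 : ℕ) : ℤ) =
          (d : ℤ) - (((0 : ℕ) : ℤ) + 1) by push_cast; ring, rf_step' h, Nat.cast_zero, sub_zero,
        rf_nat, show 2 * (j + 1) + 2 = 2 * (j + 1) + 1 + 1 by ring, qp_succ q (2 * (j + 1) + 1),
        qp_succ q (2 * (j + 1)), qp_succ q (j + 1 + d + (j + 1)), pow_zero, div_one]
      have n1 := h.qp_ne (2 * (j + 1))
      have n2 := h.qp_ne d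
      have n3 := h.sub_ne (show 0 < 2 * (j + 1) + 1 by omega)
      have n4 := h.sub_ne (show 0 < 2 * (j + 1) + 1 + 1 by omega)
      have n5 := h.sub_ne (show 0 < j + 1 + 1 by omega)
      have n6 : (1 : F) + q ^ (j + 1 + 1) ≠ 0 := by
        intro hh
        apply n4
        rw [show 2 * (j + 1) + 1 + 1 = (j + 1 + 1) + (j + 1 + 1) by ring, pow_add]
        linear_combination (1 - q ^ (j + 1 + 1)) * hh
      have e4 : (1 : F) - q ^ (2 * (j + 1) + 1 + 1) =
          (1 - q ^ (j + 1 + 1)) * (1 + q ^ (j + 1 + 1)) := by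
        rw [show 2 * (j + 1) + 1 + 1 = (j + 1 + 1) + (j + 1 + 1) by ring, pow_add]; ring
      rw [e4, show 2 * j + 3 = 2 * (j + 1) + 1 by ring, show j + 2 = j + 1 + 1 by ring]
      have e5 : (1 : F) - q ^ (j + 1 + d + (j + 1) + 1) = 1 - q ^ d * q ^ (j + 1) *
          q ^ (j + 1 + 1) := by
        rw [← pow_add, ← pow_add]; congr 2; ring
      have e6 : (1 : F) - q ^ (j + 1 + d) = 1 - q ^ d * q ^ (j + 1) := by
        rw [← pow_add]; congr 2; ring
      have e7 : (1 : F) - q ^ (j + 1 + d + 1) = 1 - q ^ d * q ^ (j + 1 + 1) := by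
        rw [← pow_add]; congr 2; ring
      rw [e5, e6, e7]
      generalize q ^ (2 * (j + 1) + 1) = A at *
      generalize q ^ (j + 1 + 1) = B at *
      generalize q ^ (j + 1) = C at *
      generalize q ^ d = D at *
      field_simp
      ring
    have e2 : (1 - q ^ (j + 1 + d)) * (1 - q ^ (j + 1 + d + 1)) /
        ((1 - q ^ 2) * (1 - q ^ (j + 1 + 1))) *
        (tw q (j + 1) * (q⁻¹ ^ ((j + 1) * (j + 1 + d - (j + 1))) *
          G q (j + 1 + d + (j + 1)) (2 * (j + 1)))) =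
        t * (q⁻¹ ^ ((j + 1) * (j + 1 + d - (j + 1))) *
          (qn q (2 * j + 3) * (1 + q ^ (j + 2)) *
          G q (j + 1 + d + (j + 1) + 1) (2 * (j + 1) + 2) +
        q ^ d * qn q (j + 1) * G q (j + 1 + d + (j + 1)) (2 * (j + 1)))) := by
      have e3 : (1 - q ^ (j + 1 + d)) * (1 - q ^ (j + 1 + d + 1)) /
        ((1 - q ^ 2) * (1 - q ^ (j + 1 + 1))) *
        (tw q (j + 1) * (q⁻¹ ^ ((j + 1) * (j + 1 + d - (j + 1))) *
          G q (j + 1 + d + (j + 1)) (2 * (j + 1)))) =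
        tw q (j + 1) / (1 - q ^ 2) * q⁻¹ ^ ((j + 1) * (j + 1 + d - (j + 1))) *
        ((1 - q ^ (j + 1 + d)) * (1 - q ^ (j + 1 + d + 1)) *
        G q (j + 1 + d + (j + 1)) (2 * (j + 1)) / (1 - q ^ (j + 1 + 1))) := by
        rw [div_mul_eq_div_div]; ring
      rw [e3, e1, hte, h.qn_eq, h.qn_eq]
      have n1 := h.one_sub
      have n2 := h.sub_ne (show 0 < 2 by omega)
      have n3 : (1 : F) + q ≠ 0 := by
        intro hh; apply n2; linear_combination (1 - q) * hh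
      have e8 : (1 : F) - q ^ 2 = (1 - q) * (1 + q) := by ring
      rw [e8]
      generalize G q (j + 1 + d + (j + 1) + 1) (2 * (j + 1) + 2) = G1
      generalize G q (j + 1 + d + (j + 1)) (2 * (j + 1)) = G2
      field_simp
    rw [e2]
    refine R.mul_mem ht (R.mul_mem (R.pow_mem hq' _) (R.add_mem ?_ ?_))
    · exact R.mul_mem (R.mul_mem (qn_mem R hq _) (R.add_mem R.one_mem (R.pow_mem hq _)))
        (h.G_mem R hq _ _)
    · exact R.mul_mem (R.mul_mem (R.pow_mem hq _) (qn_mem R hq _)) (h.G_mem R hq _ _)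

theorem caseA {q : F} (h : Gen q) (h2 : (2 : F) ≠ 0) (R : Subsemiring F) (hq : q ∈ R)
    (hq' : q⁻¹ ∈ R) (m n : ℕ) (hm : 0 < m) (hn : 0 < n) :
    (1 - q ^ m) * (1 - q ^ (m + 1)) / ((1 - q ^ 2) * (1 - q ^ n) ^ 2) *
      ∑ k ∈ range n, (1 - q ^ (2 * k + 1)) * (q ^ k)⁻¹ * Uf q k m ∈ R := by
  have e1 : ∑ k ∈ range n, (1 - q ^ (2 * k + 1)) * (q ^ k)⁻¹ * Uf q k m =
      ∑ j ∈ range (m + 1), cc q m j / (qp q j * qp q j) *
        ∑ k ∈ range n, (1 - q ^ (2 * k + 1)) * (q ^ k)⁻¹ * Y q j k := by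
    simp only [mul_sum]
    rw [sum_comm]
    refine sum_congr rfl fun k _ => ?_
    rw [U_expand h h2, mul_sum]
    refine sum_congr rfl fun j _ => ?_
    unfold al
    ring
  rw [e1, mul_sum]
  refine R.sum_mem fun j hj => ?_
  have hj' := mem_range.1 hj
  obtain ⟨d, rfl⟩ : ∃ d, n = d + 1 := ⟨n - 1, by omega⟩
  have e2 : (1 - q ^ m) * (1 - q ^ (m + 1)) / ((1 - q ^ 2) * (1 - q ^ (d + 1)) ^ 2) *
      (cc q m j / (qp q j * qp q j) *
        ∑ k ∈ range (d + 1), (1 - q ^ (2 * k + 1)) * (q ^ k)⁻¹ * Y q j k) =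
      ((1 - q ^ m) * (1 - q ^ (m + 1)) / ((1 - q ^ 2) * (1 - q ^ (j + 1))) * cc q m j) *
        (q ^ (j + 1) * (q⁻¹ ^ ((j + 1) * (d + 1)) * (G q d j * G q (d + 1 + j) j))) := by
    rw [sumB h, G_rf h d j, G_of_le q (show j ≤ d + 1 + j by omega), Nat.add_sub_cancel, inv_pow,
      qp_succ q d, show ((d + 1 : ℕ) : ℤ) - ((j : ℤ) + 1) = (d : ℤ) - j by push_cast; ring]
    have n1 := h.sub_ne hn
    have n2 := h.qp_ne j
    have n3 := h.qp_ne d
    have n4 := h.sub_ne (Nat.succ_pos j)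
    have n5 := h.sub_ne (show 0 < 2 by omega)
    rw [Nat.succ_eq_add_one] at n4
    field_simp
  rw [e2]
  exact R.mul_mem (coefA h R hq hq' m j (by omega) hm) (R.mul_mem (R.pow_mem hq _)
    (R.mul_mem (R.pow_mem hq' _) (R.mul_mem (h.G_mem R hq _ _) (h.G_mem R hq _ _))))

end Pool.Agent.Q95.DQ
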