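import Pool.Agent.Q95.DQ.E

/-!
# Inversion of the base
-/

set_option autoImplicit false

open Finset

namespace Pool.Agent.Q95.DQ

open Pool.Agent.Q95.CQ

variable {F : Type*} [Field F]

theorem gen_inv {q : F} (h : Gen q) : Gen q⁻¹ where
  ne := inv_ne_zero h.ne
  pow := by
    intro n hn hh
    rw [inv_pow, inv_eq_one] at hh
    exact h.pow n hn hh

theorem tri (a b : ℕ) : (a + b + 1).choose 2 = (a + 1).choose 2 + (b + 1).choose 2 + a * b := by
  induction b with
  | zero => simp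
  | succ b ih =>
    rw [show a + (b + 1) + 1 = (a + b + 1) + 1 by ring, ch2, ih, ch2 (b + 1)]
    ring

theorem qp_inv {q : F} (h : Gen q) (n : ℕ) :
    qp q⁻¹ n = (-1) ^ n * (q ^ ((n + 1).choose 2))⁻¹ * qp q n := by
  induction n with
  | zero => simp [qp_zero]
  | succ n ih =>
    rw [qp_succ, ih, qp_succ, ch2 (n + 1), pow_add q ((n + 1).choose 2), inv_pow]
    have n1 : q ^ (n + 1) ≠ 0 := pow_ne_zero _ h.ne
    have n2 : q ^ ((n + 1).choose 2) ≠ 0 := pow_ne_zero _ h.ne
    have e : (1 : F) - (q ^ (n + 1))⁻¹ = -((q ^ (n + 1))⁻¹ * (1 - q ^ (n + 1))) := by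
      rw [mul_sub, inv_mul_cancel₀ n1]; ring
    rw [e, mul_inv]
    ring

theorem G_inv {q : F} (h : Gen q) (K d : ℕ) :
    G q⁻¹ (K + d) K = (q ^ (K * d))⁻¹ * G q (K + d) K := by
  rw [G_add, G_add, qp_inv h, qp_inv h, qp_inv h, tri K d, pow_add, pow_add, pow_add]
  have n1 := h.qp_ne K
  have n2 := h.qp_ne d
  have n3 : q ^ ((K + 1).choose 2) ≠ 0 := pow_ne_zero _ h.ne
  have n4 : q ^ ((d + 1).choose 2) ≠ 0 := pow_ne_zero _ h.ne
  have n5 : q ^ (K * d) ≠ 0 := pow_ne_zero _ h.ne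
  have n6 : (-1 : F) ^ K ≠ 0 := pow_ne_zero _ (by norm_num)
  have n7 : (-1 : F) ^ d ≠ 0 := pow_ne_zero _ (by norm_num)
  field_simp

theorem dd_inv {q : F} (h : Gen q) (m n : ℕ) :
    dd q⁻¹ m n = ((q ^ n) ^ m)⁻¹ * ee q m n := by
  unfold dd ee
  rw [mul_sum]
  refine sum_congr rfl fun k hk => ?_
  have hk' := mem_range.1 hk
  by_cases hkm : k ≤ m
  · obtain ⟨e, rfl⟩ : ∃ e, n = k + e := ⟨n - k, by omega⟩
    obtain ⟨f, rfl⟩ : ∃ f, m = k + f := ⟨m - k, by omega⟩
    rw [show k + e + (k + f) - k = (k + e) + f by omega, G_inv h, G_inv h, inv_pow, ← pow_mul]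
    have e1 : q ^ ((k + e) * (k + f)) =
        q ^ (k.choose 2) * q ^ (k * e) * q ^ ((k + e) * f) * q ^ ((k + 1).choose 2) := by
      rw [← pow_add, ← pow_add, ← pow_add]
      congr 1
      have h1 := Nat.triangle_succ k
      have h2 : k.choose 2 + (k + 1).choose 2 = k * k := by
        clear h1
        induction k with
        | zero => rfl
        | succ k _ =>
          have : ∀ k : ℕ, k.choose 2 + (k + 1).choose 2 = k * k := by
            intro k
            induction k with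
            | zero => rfl
            | succ k ih => rw [ch2 (k + 1), ch2 k] at *; linarith [ih, ch2 k]
          exact this (k + 1)
      nlinarith [h2]
    rw [e1]
    have n1 : q ^ (k.choose 2) ≠ 0 := pow_ne_zero _ h.ne
    have n2 : q ^ (k * e) ≠ 0 := pow_ne_zero _ h.ne
    have n3 : q ^ ((k + e) * f) ≠ 0 := pow_ne_zero _ h.ne
    have n4 : q ^ ((k + 1).choose 2) ≠ 0 := pow_ne_zero _ h.ne
    field_simp
  · rw [G_of_lt q (show n + m - k < n by omega), G_of_lt q⁻¹ (show n + m - k < n by omega)]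
    ring

theorem prod_eq_Uf {q : F} (h : Gen q) (m n : ℕ) : dd q m n * dd q⁻¹ m n = Uf q n m := by
  rw [dd_inv h]
  unfold Uf
  rw [div_eq_mul_inv]
  ring

theorem gauss_aux {q : F} (h : Gen q) (d K : ℕ) :
    ∏ i ∈ Finset.Icc 1 K, (1 - q ^ (d + i)) / (1 - q ^ i) =
      qp q (K + d) / (qp q K * qp q d) := by
  induction K with
  | zero =>
    have := h.qp_ne d
    simp only [Finset.Icc_eq_empty_of_lt (show (0 : ℕ) < 1 by norm_num), Finset.prod_empty,
      zero_add, qp_zero, one_mul]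
    rw [div_self this]
  | succ K ih =>
    rw [Finset.prod_Icc_succ_top (by omega), ih, show K + 1 + d = K + d + 1 by ring,
      qp_succ, qp_succ, show d + (K + 1) = K + d + 1 by ring]
    have h1 := h.qp_ne K
    have h2 := h.qp_ne d
    have h3 := h.sub_ne (Nat.succ_pos K)
    rw [Nat.succ_eq_add_one] at h3
    field_simp

theorem gauss_eq {q : F} (h : Gen q) (N K : ℕ) :
    (if K ≤ N then ∏ i ∈ Finset.Icc 1 K, (1 - q ^ (N - K + i)) / (1 - q ^ i) else 0) =
      G q N K := by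
  split_ifs with hh
  · rw [gauss_aux h, G_of_le _ hh, show K + (N - K) = N by omega]
  · rw [G_of_lt _ (by omega)]

end Pool.Agent.Q95.DQ
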